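import Pool.Agent.Lib.MP_acafa7_al.F.H24.QInB

/-! Module QINA of ff_modules: a loop among the inner spokes. -/

namespace MSG.F48

open Classical

variable {D : Type} [Fintype D] {M : DMap D} {R : List D} {ℓ : D → ℝ} {o : D} {k : ℕ} {s : ℕ → D}

/-- the sum of the corners at the vertex of `o` -/
theorem dsum_le (h : IsMD M R ℓ) (hK : DMk M R ℓ o) (hF : DFan M R ℓ o k s) (T : Finset D)
    (hT : ∀ d ∈ T, M.SameV o d ∧ d ∉ R) : ∑ d ∈ T, M.th ℓ d < Real.pi := by
  have h0 := hK.curv
  rw [hF.curv] at h0
  have h1 : ∑ j ∈ Finset.range k, M.th ℓ (s j) = ∑ d ∈ (Finset.range k).image s, M.th ℓ d := by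
    rw [Finset.sum_image]
    intro i hi j hj hij
    simp only [Finset.coe_range, Set.mem_Iio] at hi hj
    exact hF.inj i j hi.le hj.le hij
  have h2 : T ⊆ (Finset.range k).image s := by
    intro d hd
    obtain ⟨h3, h4⟩ := hT d hd
    obtain ⟨j, hj, rfl⟩ := (hF.cls d).1 h3
    rw [Finset.mem_image]
    refine ⟨j, ?_, rfl⟩
    rw [Finset.mem_range]
    rcases Nat.lt_or_ge j k with h | h
    · exact h
    · exfalso
      have : j = k := le_antisymm hj h
      rw [this, hF.last] at h4
      exact h4 hK.mem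
  have h5 := Finset.sum_le_sum_of_subset_of_nonneg (f := fun d => M.th ℓ d) h2 (by
    intro d hd _
    rw [Finset.mem_image] at hd
    obtain ⟨j, hj, rfl⟩ := hd
    rw [Finset.mem_range] at hj
    exact (H50.th_facts H09.ang h.off h.lenok (hF.tri j hj)).1.le)
  linarith

/-- QINA -/
theorem qina_st (hQ : QFlipStatement) : QInAStatement := by
  intro D _ M R ℓ o k s h hK hF j hj0 hjk hloop
  obtain ⟨j', rfl⟩ : ∃ j', j = j' + 1 := ⟨j - 1, by omega⟩
  obtain ⟨e1, e2, hι⟩ := F24.dspoke h hF (j := j') (by omega)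
  have hs := hF.tri (j' + 1) hjk
  set d := s (j' + 1) with hd
  have ht : d ∉ {d | d ∈ R} := hs
  have hιt : M.ι d ∉ {d | d ∈ R} := hι
  have c1 := H50.off3_compl h.off ht
  have c2 := H50.off3_compl h.off c1
  have c3 := H50.off3_compl h.off hιt
  have c4 := H50.off3_compl h.off c3
  have so : M.SameV o d := (hF.cls _).2 ⟨j' + 1, hjk.le, rfl⟩
  have sφ : M.SameV o (M.φ d) := M.sameV_trans hloop (M.sameV_symm (M.sameV_step d))
  have n1 : M.ι d ≠ M.φ d := H50.ne_phi H09.ang h.off h.lenok (F24.md_npc h) ht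
  have nj : s j' ≠ d := by
    intro h'
    have := hF.inj j' (j' + 1) (by omega) (by omega) h'
    omega
  have n2 : M.ι d ≠ M.φ (M.φ d) := by
    intro h'
    rw [h', (h.off.2 d ht).1] at e2
    exact nj e2.symm
  have nφ : M.φ d ≠ d := (h.off.2 d ht).2
  have nι : M.ι d ≠ d := M.ne d
  have nιj : M.ι d ≠ s j' := by
    intro h'
    have := (h.off.2 _ hιt).2
    rw [e2] at this
    exact this h'.symm
  have sj : M.SameV o (s j') := (hF.cls _).2 ⟨j', by omega, rfl⟩
  have tj := hF.tri j' (by omega)
  -- the angles at the vertex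
  have a1 : M.th ℓ d + M.th ℓ (M.φ (M.ι d)) < Real.pi := by
    have h' := dsum_le h hK hF {d, s j', M.ι d} (by
      intro x hx
      simp only [Finset.mem_insert, Finset.mem_singleton] at hx
      rcases hx with rfl | rfl | rfl
      · exact ⟨so, hs⟩
      · exact ⟨sj, tj⟩
      · exact ⟨hloop, hι⟩)
    rw [Finset.sum_insert (by
      simp only [Finset.mem_insert, Finset.mem_singleton]
      rintro (h' | h')
      · exact nj h'.symm
      · exact nι h'.symm), Finset.sum_insert (by
      simp only [Finset.mem_singleton]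
      exact fun h' => nιj h'.symm), Finset.sum_singleton] at h'
    have := (H50.th_facts H09.ang h.off h.lenok hιt).1
    rw [e2]
    linarith
  have a2 : M.th ℓ (M.ι d) + M.th ℓ (M.φ d) < Real.pi := by
    have h' := dsum_le h hK hF {d, M.ι d, M.φ d} (by
      intro x hx
      simp only [Finset.mem_insert, Finset.mem_singleton] at hx
      rcases hx with rfl | rfl | rfl
      · exact ⟨so, hs⟩
      · exact ⟨hloop, hι⟩
      · exact ⟨sφ, c1⟩)
    rw [Finset.sum_insert (by
      simp only [Finset.mem_insert, Finset.mem_singleton]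
      rintro (h' | h')
      · exact nι h'.symm
      · exact nφ h'.symm), Finset.sum_insert (by
      simp only [Finset.mem_singleton]
      exact n1), Finset.sum_singleton] at h'
    have := (H50.th_facts H09.ang h.off h.lenok ht).1
    linarith
  obtain ⟨M', ℓ', hfl, hMD, hsame, harea⟩ := hQ D M R ℓ h d hs hι n1 n2 a1 a2
  have hos : o ≠ d := by
    intro h'
    exact hs (h' ▸ hK.mem)
  have hoι : o ≠ M.ι d := by
    intro h'
    exact hι (h' ▸ hK.mem)
  have hns : ∀ b ∈ R, b ≠ d := by
    rintro b hb rfl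
    exact hs hb
  have hnι : ∀ b ∈ R, b ≠ M.ι d := by
    rintro b hb rfl
    exact hι hb
  have hφ : ∀ b ∈ R, M'.φ b = M.φ b := by
    intro b hb
    refine hfl.rest b ?_ ?_ ?_ ?_ ?_ ?_
    · exact hns b hb
    · rintro rfl
      exact c1 hb
    · rintro rfl
      exact c2 hb
    · exact hnι b hb
    · rintro rfl
      exact c3 hb
    · rintro rfl
      exact c4 hb
  have hcurv := (hsame o hos hoι).2
  have hdeg := H21.flipdeg D M M' d (h.off.2 _ ht) (h.off.2 _ hιt) n1 n2 hfl o hos hoι
  refine ⟨M', ℓ', hMD, ⟨hK.mem, ?_, ?_, ?_⟩, ?_, hcurv, harea, ?_⟩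
  · intro b hb hob
    exact hK.uni b hb ((hfl.sv o b hos hoι (hns b hb) (hnι b hb)).1 hob)
  · rw [hcurv]
    exact hK.curv
  · rw [hφ o hK.mem]
    exact hK.ne
  · exact fun b hb => ⟨(hsame b (hns b hb) (hnι b hb)).1, hφ b hb⟩
  · -- the opposite vertex of `φ φ d` is not the vertex of `o`
    have hopp : ¬ M.SameV o (M.φ (M.φ d)) := by
      intro h4
      have h' := dsum_le h hK hF {M.ι d, d, M.φ d, M.φ (M.φ d)} (by
        intro x hx
        simp only [Finset.mem_insert, Finset.mem_singleton] at hx
        rcases hx with rfl | rfl | rfl | rfl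
        · exact ⟨hloop, hι⟩
        · exact ⟨so, hs⟩
        · exact ⟨sφ, c1⟩
        · exact ⟨h4, c2⟩)
      rw [Finset.sum_insert (by
        simp only [Finset.mem_insert, Finset.mem_singleton]
        rintro (h' | h' | h')
        · exact nι h'
        · exact n1 h'
        · exact n2 h'), Finset.sum_insert (by
        simp only [Finset.mem_insert, Finset.mem_singleton]
        rintro (h' | h')
        · exact nφ h'.symm
        · have h5 := (h.off.2 d ht).1
          rw [← h'] at h5
          exact nφ h5), Finset.sum_insert (by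
        simp only [Finset.mem_singleton]
        intro h'
        exact nφ (M.φ.injective h'.symm)), Finset.sum_singleton] at h'
      have h6 := (H50.th_facts H09.ang h.off h.lenok ht).2.2
      have h7 := (H50.th_facts H09.ang h.off h.lenok hιt).1
      linarith
    rw [if_pos so, if_pos hloop, if_neg hopp] at hdeg
    split_ifs at hdeg <;> omega

end MSG.F48
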