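import Pool.Agent.Lib.MP_acafa7_al.F.H65.Dst

/-! THMFC (section 8): Theorem F from the coarse hypotheses. -/

namespace MSG.F48

open Classical

theorem jmp_dist {V : Type} {G : SimpleGraph V} (hG : G.Connected) {F : Set V} {k N : ℕ}
    {x y : V} (h : Jmp G F k N x y) : G.dist x y ≤ N * k := by
  obtain ⟨q, q0, qN, _, qd⟩ := h
  have key : ∀ i, i ≤ N → G.dist (q 0) (q i) ≤ i * k := by
    intro i
    induction i with
    | zero => intro _; simp
    | succ i ih =>
      intro hi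
      have h1 := hG.dist_triangle (u := q 0) (v := q i) (w := q (i + 1))
      have h2 := ih (by omega)
      have h3 := qd i (by omega)
      have h4 : (i + 1) * k = i * k + k := by ring
      omega
  have := key N le_rfl
  rwa [q0, qN] at this

/-- THMFC -/
theorem thmfc_st (hLS : LSStatement) (hCON : ConStatement) (hBN : BNStatement)
    (hTB : TorBStatement) (hQ : QCBStatement) : ThmFCStatement := by
  intro V G C hC Γ _ _ hAct A hc ht
  have hG := hC.conn
  have hds : ∀ (g : Γ) (x y : V), G.dist (g • x) (g • y) = G.dist x y := fun g x y =>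
    F65.dist_smul hG hAct.aut g x y
  by_contra hinf
  obtain ⟨hT1, hT2⟩ := hTB Γ A hc ht hinf
  set Δ : ℕ := C3 C with hΔ
  set D : ℕ := 4 * Δ + 3 with hD
  set N₁ : ℕ := C6 C (2 * D) with hN₁
  obtain ⟨M, hM⟩ := hBN V G C hC Γ hAct (2 * N₁)
  obtain ⟨p, hp, B, hBA, hBfin, hBp, hBce, hBM⟩ := hT1 M
  have hBc : ∀ a ∈ B, ∀ b ∈ B, a * b = b * a := fun a ha b hb => hc a (hBA ha) b (hBA hb)
  have : Fintype B := Fintype.ofFinite B
  have hautB : Aut G B := fun b x y => hAct.aut (b : Γ) x y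
  obtain ⟨c, L, hLSP⟩ := hLS V G C hC p B hautB
    (fun a b => Subtype.ext (hBc a a.2 b b.2)) hBp
  obtain ⟨K₁, hK₁⟩ := hM p B hBfin hBp hBc hBce hBM c L hLSP
  obtain ⟨K₂, hK₂⟩ := hCON V G C hC p B hautB hBp c L hLSP (2 * D)
  set F : Set V := Fc G B c with hF
  have hFne : F.Nonempty := by
    obtain ⟨x⟩ := hG.nonempty
    obtain ⟨x', hx', _⟩ := hLSP x (Finset.univ.sup fun b : B => G.dist x (b • x)) (fun b =>
      Finset.le_sup (f := fun b : B => G.dist x (b • x)) (Finset.mem_univ b))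
    exact ⟨x', hx'⟩
  have hFA : ∀ a ∈ A, ∀ x ∈ F, a • x ∈ F := by
    intro a ha x hx b
    have h1 : b • a • x = a • b • x := by
      show (b : Γ) • a • x = a • (b : Γ) • x
      rw [smul_smul, smul_smul, hc b (hBA b.2) a ha]
    rw [h1, hds]
    exact hx b
  obtain ⟨n, hnn⟩ := hAct.prop (D * (max K₁ K₂ + 1))
  -- a large finite subgroup of `A`
  obtain ⟨A', hA'A, hA'fin, hA'n⟩ := hT2 n
  have : Fintype A' := Fintype.ofFinite A'
  -- displacement
  let mx : V → ℕ := fun x => Finset.univ.sup fun a : A' => G.dist x (a • x)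
  have hmx : ∀ x, ∀ a : A', G.dist x (a • x) ≤ mx x := by
    intro x a
    exact Finset.le_sup (f := fun a : A' => G.dist x (a • x)) (Finset.mem_univ a)
  obtain ⟨x₀, hx₀F, hx₀⟩ : ∃ x₀ ∈ F, ∀ y ∈ F, mx x₀ ≤ mx y := by
    have hex : ∃ m : ℕ, ∃ x ∈ F, mx x = m := by
      obtain ⟨x, hx⟩ := hFne
      exact ⟨_, x, hx, rfl⟩
    obtain ⟨x₀, hx₀, h⟩ := Nat.find_spec hex
    refine ⟨x₀, hx₀, fun y hy => ?_⟩
    rw [h]
    exact Nat.find_min' hex ⟨y, hy, rfl⟩
  set K : ℕ := mx x₀ with hK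
  have hKbig : D * (max K₁ K₂ + 1) < K := by
    by_contra hcon
    have h1 := hnn x₀
    have h2 : (A' : Set Γ) ⊆ {g : Γ | G.dist x₀ (g • x₀) ≤ D * (max K₁ K₂ + 1)} := by
      intro g hg
      exact (hmx x₀ ⟨g, hg⟩).trans (not_lt.mp hcon)
    have h3 := Set.ncard_le_ncard h2 h1.1
    have h4 : (A' : Set Γ).ncard = Nat.card A' := rfl
    omega
  have hDpos : 0 < D := by omega
  set k : ℕ := K / D with hk
  have hk1 : max K₁ K₂ + 1 ≤ k := by
    rw [hk, Nat.le_div_iff_mul_le hDpos, mul_comm]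
    exact hKbig.le
  have hk2 : D * k ≤ K := Nat.mul_div_le K D
  have hk3 : K < D * (k + 1) := Nat.lt_mul_div_succ K hDpos
  have hk4 : K ≤ 2 * D * k := by
    have : D * (k + 1) ≤ 2 * D * k := by
      have h1 : 1 ≤ k := by omega
      nlinarith
    omega
  have hcon' := hK₂ k (by have := le_max_right K₁ K₂; omega)
  have hbot' := hK₁ k (by have := le_max_left K₁ K₂; omega)
  have hautA' : Aut G A' := fun b x y => hAct.aut (b : Γ) x y
  obtain ⟨z, hzF, hz⟩ := hQ V G A' hautA' F (fun a x hx => hFA a (hA'A a.2) x hx) k N₁ Δ hbot'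
    x₀ hx₀F (fun a => hcon' x₀ _ hx₀F (hFA a (hA'A a.2) x₀ hx₀F) ((hmx x₀ a).trans hk4))
  have hfinal : mx z < K := by
    have h1 : mx z ≤ (4 * Δ + 2) * k := by
      apply Finset.sup_le
      intro a _
      exact jmp_dist hG (hz a)
    have h2 : (4 * Δ + 2) * k + k = D * k := by rw [hD]; ring
    omega
  exact absurd (hx₀ z hzF) (not_le.mpr hfinal)

end MSG.F48
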